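import Pool.Agent.Helper65_C4K.Plk

/-!
# PRD: probability of a defect
-/

set_option autoImplicit false

namespace Pool.Agent.C4K.H83

open Finset Cl
open scoped Classical

open Pool.Agent.C4K.PlkAux

noncomputable section

variable {V : Type} [Fintype V] {C : Cl V} {T : ℕ}

theorem E_pair {p : ℝ} (h0 : 0 ≤ p) (h1 : p ≤ 1) {w w' : C.Wk T} (hne : w ≠ w') :
    C.E T p (fun om => (if om w = true then (1 : ℝ) else 0) * (if om w' = true then (1 : ℝ) else 0)) =
      p ^ 2 := by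
  unfold Cl.E
  have h2 : ∀ w : C.Wk T, qq (W := C.Wk T) p w true = p := by
    intro w
    unfold qq
    rw [if_pos rfl]
  have h3 := LLLA.Ex_coord_mul (α := fun _ : C.Wk T => Bool) (qq_prob (p := p) h0 h1) w true
    (fun om => if om w' = true then (1 : ℝ) else 0) (by
      intro om om' h
      show (if om w' = true then (1 : ℝ) else 0) = if om' w' = true then (1 : ℝ) else 0
      rw [h w' (Ne.symm hne)])
  rw [h3, LLLA.Ex_coord (α := fun _ : C.Wk T => Bool) (qq_prob (p := p) h0 h1) w' true, h2, h2]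
  ring

/-- pairs of different walks, both present -/
theorem Pr_pairs {p : ℝ} (h0 : 0 ≤ p) (h1 : p ≤ 1) (X : Set (C.Wk T → Bool))
    (S : Finset (C.Wk T × C.Wk T)) (hS : ∀ x ∈ S, x.1 ≠ x.2) (k : ℕ) (hk : 0 < k)
    (h : ∀ om ∈ X, k ≤ (S.filter fun x => om x.1 = true ∧ om x.2 = true).card) :
    C.Pr T p X * k ≤ p ^ 2 * S.card := by
  have hk' : (0 : ℝ) < k := by exact_mod_cast hk
  have hE : C.E T p (fun om => ∑ x ∈ S, (if om x.1 = true then (1 : ℝ) else 0) *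
      (if om x.2 = true then (1 : ℝ) else 0)) = p ^ 2 * S.card := by
    have hh : ∀ x ∈ S, LLLA.Ex (α := fun _ : C.Wk T => Bool) (qq p) (fun om =>
        (if om x.1 = true then (1 : ℝ) else 0) * (if om x.2 = true then (1 : ℝ) else 0)) = p ^ 2 :=
      fun x hx => E_pair (p := p) h0 h1 (hS x hx)
    unfold Cl.E
    rw [LLLA.Ex_sum]
    rw [Finset.sum_congr rfl hh, Finset.sum_const, nsmul_eq_mul]
    ring
  have hc : ∀ om : C.Wk T → Bool, (∑ x ∈ S, (if om x.1 = true then (1 : ℝ) else 0) *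
      (if om x.2 = true then (1 : ℝ) else 0)) =
      ((S.filter fun x => om x.1 = true ∧ om x.2 = true).card : ℝ) := by
    intro om
    rw [Finset.card_filter]
    push_cast
    refine Finset.sum_congr rfl fun x _ => ?_
    by_cases hx1 : om x.1 = true <;> by_cases hx2 : om x.2 = true <;> simp [hx1, hx2]
  have h3 : C.Pr T p X ≤ C.E T p (fun om => (1 / (k : ℝ)) *
      ∑ x ∈ S, (if om x.1 = true then (1 : ℝ) else 0) *
        (if om x.2 = true then (1 : ℝ) else 0)) := by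
    apply Pr_le_E h0 h1
    · intro om
      rw [hc]
      positivity
    · intro om hom
      rw [hc, one_div, inv_mul_eq_div, le_div_iff₀ hk', one_mul]
      exact_mod_cast h om hom
  have h4 : C.E T p (fun om => (1 / (k : ℝ)) *
      ∑ x ∈ S, (if om x.1 = true then (1 : ℝ) else 0) *
        (if om x.2 = true then (1 : ℝ) else 0)) = (1 / (k : ℝ)) * (p ^ 2 * S.card) := by
    rw [← hE]
    unfold Cl.E
    rw [LLLA.Ex_const_mul]
  rw [h4, one_div, inv_mul_eq_div, le_div_iff₀ hk'] at h3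
  exact h3

/-- multiplicity at least two -/
theorem Pr_mult2 {p r : ℝ} (h0 : 0 ≤ p) (h1 : p ≤ 1) (u : V)
    (hu : p * ((univ.filter fun w : C.Wk T => w.has u).card : ℝ) ≤ 2 * r) :
    C.Pr T p {om | 2 ≤ mult om u} ≤ 2 * r ^ 2 := by
  obtain ⟨A, hA⟩ : ∃ A : Finset (C.Wk T), A = univ.filter fun w : C.Wk T => w.has u := ⟨_, rfl⟩
  rw [← hA] at hu
  have h2 := Pr_pairs (C := C) (T := T) h0 h1 {om | 2 ≤ mult om u} A.offDiag
    (fun x hx => (mem_offDiag.1 hx).2.2) 2 (by norm_num) (by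
      intro om hom
      have hm : 2 ≤ (univ.filter fun w : C.Wk T => om w = true ∧ w.has u).card := hom
      obtain ⟨w, hw, w', hw', hne⟩ := Finset.one_lt_card.1 hm
      rw [mem_filter] at hw hw'
      have hp : ({(w, w'), (w', w)} : Finset (C.Wk T × C.Wk T)) ⊆
          A.offDiag.filter fun x => om x.1 = true ∧ om x.2 = true := by
        intro x hx
        rw [mem_insert, mem_singleton] at hx
        rw [mem_filter, mem_offDiag, hA]
        rcases hx with rfl | rfl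
        · exact ⟨⟨mem_filter.2 ⟨mem_univ _, hw.2.2⟩, mem_filter.2 ⟨mem_univ _, hw'.2.2⟩, hne⟩,
            hw.2.1, hw'.2.1⟩
        · exact ⟨⟨mem_filter.2 ⟨mem_univ _, hw'.2.2⟩, mem_filter.2 ⟨mem_univ _, hw.2.2⟩,
            Ne.symm hne⟩, hw'.2.1, hw.2.1⟩
      refine le_trans ?_ (Finset.card_le_card hp)
      rw [Finset.card_pair]
      intro h
      exact hne (Prod.ext_iff.1 h).1)
  have h3 : (A.offDiag.card : ℝ) ≤ (A.card : ℝ) * A.card := by
    have : A.offDiag.card ≤ A.card * A.card := by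
      rw [Finset.offDiag_card]
      exact Nat.sub_le _ _
    exact_mod_cast this
  have h4 : p ^ 2 * (A.offDiag.card : ℝ) ≤ (2 * r) * (2 * r) := by
    calc p ^ 2 * (A.offDiag.card : ℝ) ≤ p ^ 2 * ((A.card : ℝ) * A.card) :=
          mul_le_mul_of_nonneg_left h3 (sq_nonneg p)
      _ = (p * A.card) * (p * A.card) := by ring
      _ ≤ (2 * r) * (2 * r) := by
          have h5 : 0 ≤ p * (A.card : ℝ) := by positivity
          exact mul_le_mul hu hu h5 (h5.trans hu)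
  have h6 := h2.trans h4
  push_cast at h6
  nlinarith

/-- two walks: the first one through `v`, the second one through a node determined by the first -/
theorem Pr_two {p r : ℝ} (h0 : 0 ≤ p) (h1 : p ≤ 1)
    (hu : ∀ u, p * ((univ.filter fun w : C.Wk T => w.has u).card : ℝ) ≤ 2 * r) (v : V)
    (rho : C.Wk T → C.Wk T → Prop) (h2 : ∀ w w', rho w w' → w.has v)
    (h3 : ∀ w, ∃ u, ∀ w', rho w w' → w'.has u) (X : Set (C.Wk T → Bool))
    (hX : ∀ om ∈ X, ∃ w w', w ≠ w' ∧ om w = true ∧ om w' = true ∧ rho w w') :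
    C.Pr T p X ≤ 4 * r ^ 2 := by
  obtain ⟨S, hS⟩ : ∃ S : Finset (C.Wk T × C.Wk T),
    S = univ.filter fun x => x.1 ≠ x.2 ∧ rho x.1 x.2 := ⟨_, rfl⟩
  have h4 := Pr_pairs (C := C) (T := T) h0 h1 X S (by
      intro x hx
      rw [hS, mem_filter] at hx
      exact hx.2.1) 1 (by norm_num) (by
      intro om hom
      obtain ⟨w, w', hne, hw, hw', hr⟩ := hX om hom
      apply Finset.card_pos.2
      refine ⟨(w, w'), ?_⟩
      rw [mem_filter, hS, mem_filter]
      exact ⟨⟨mem_univ _, hne, hr⟩, hw, hw'⟩)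
  rw [Nat.cast_one, mul_one] at h4
  refine h4.trans ?_
  have h5 : S.card = ∑ w : C.Wk T, (univ.filter fun w' => w ≠ w' ∧ rho w w').card := by
    rw [hS, Finset.card_filter, ← univ_product_univ, Finset.sum_product]
    refine Finset.sum_congr rfl fun w _ => ?_
    rw [Finset.card_filter]
  have h6 : ∀ w : C.Wk T, p * ((univ.filter fun w' => w ≠ w' ∧ rho w w').card : ℝ) ≤
      if w.has v then 2 * r else 0 := by
    intro w
    split_ifs with hw
    · obtain ⟨u, hu'⟩ := h3 w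
      refine le_trans (mul_le_mul_of_nonneg_left ?_ h0) (hu u)
      have : (univ.filter fun w' => w ≠ w' ∧ rho w w') ⊆ univ.filter fun w' : C.Wk T => w'.has u := by
        intro w' hw'
        rw [mem_filter] at hw' ⊢
        exact ⟨mem_univ _, hu' w' hw'.2.2⟩
      exact_mod_cast Finset.card_le_card this
    · have : (univ.filter fun w' => w ≠ w' ∧ rho w w') = ∅ := by
        apply Finset.filter_eq_empty_iff.2
        intro w' _ h
        exact hw (h2 w w' h.2)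
      rw [this, card_empty, Nat.cast_zero, mul_zero]
  have hr : 0 ≤ 2 * r := le_trans (by positivity) (hu v)
  calc p ^ 2 * (S.card : ℝ) = p * ∑ w : C.Wk T, p * ((univ.filter fun w' => w ≠ w' ∧
        rho w w').card : ℝ) := by
        rw [h5, ← Finset.mul_sum]
        push_cast
        ring
    _ ≤ p * ∑ w : C.Wk T, if w.has v then 2 * r else 0 :=
        mul_le_mul_of_nonneg_left (Finset.sum_le_sum fun w _ => h6 w) h0
    _ = (p * ((univ.filter fun w : C.Wk T => w.has v).card : ℝ)) * (2 * r) := by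
        rw [← Finset.sum_filter, Finset.sum_const, nsmul_eq_mul]
        ring
    _ ≤ (2 * r) * (2 * r) := mul_le_mul_of_nonneg_right (hu v) hr
    _ = 4 * r ^ 2 := by ring

theorem prd (hW : WPCStmt) (hPim : PIMStmt) : PRDStmt := by
  intro V _ C d T p z r hP v
  obtain ⟨w1, w2, -⟩ := hW V C d T p z r hP
  have hD := (hPim V C d T hP.ok).def'
  have h0 : 0 ≤ p := hP.p0.le
  have h1 : p ≤ 1 := by linarith [hP.ph]
  have hz : 0 ≤ z := hP.z0.le
  have hq := qq_prob (W := C.Wk T) h0 h1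
  have hinj := hP.ok.inj
  -- the node before `v`
  obtain ⟨a, ha⟩ : ∃ a, ∀ x, C.f x = some v → x = a := by
    by_cases h : ∃ a, C.f a = some v
    · obtain ⟨a, ha⟩ := h
      exact ⟨a, fun x hx => hinj _ _ _ hx ha⟩
    · exact ⟨v, fun x hx => absurd ⟨x, hx⟩ h⟩
  have e1 : C.Pr T p {om | ∃ w : C.Wk T, om w = true ∧ w.n T = v} ≤ 2 * z := by
    refine le_trans (Pr_ex_le h0 h1 _ (univ.filter fun w : C.Wk T => w.n T = v) ?_)
      (w1 T v le_rfl)
    rintro om ⟨w, hw, hwv⟩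
    exact ⟨w, mem_filter.2 ⟨mem_univ _, hwv⟩, hw⟩
  have e2 : C.Pr T p {om | ∃ w : C.Wk T, om w = true ∧ C.f (w.n 0) = some v} ≤ 2 * z := by
    refine le_trans (Pr_ex_le h0 h1 _ (univ.filter fun w : C.Wk T => w.n 0 = a) ?_)
      (w1 0 a (Nat.zero_le _))
    rintro om ⟨w, hw, hwv⟩
    exact ⟨w, mem_filter.2 ⟨mem_univ _, ha _ hwv⟩, hw⟩
  have e3 : C.Pr T p {om | 2 ≤ mult om v} ≤ 2 * r ^ 2 := Pr_mult2 h0 h1 v (w2 v)
  have e4 : C.Pr T p {om | 2 ≤ mult om a} ≤ 2 * r ^ 2 := Pr_mult2 h0 h1 a (w2 a)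
  have hpair : ∀ (om : C.Wk T → Bool) (w : C.Wk T) (u : V), 2 ≤ mult om u →
      ∃ w', w ≠ w' ∧ om w' = true ∧ w'.has u := by
    intro om w u hm
    have hm' : 1 < (univ.filter fun w : C.Wk T => om w = true ∧ w.has u).card := hm
    obtain ⟨w', hw', hne⟩ := Finset.exists_mem_ne hm' w
    rw [mem_filter] at hw'
    exact ⟨w', Ne.symm hne, hw'.2.1, hw'.2.2⟩
  have e5 : C.Pr T p {om | ∃ w : C.Wk T, om w = true ∧ ∃ i, i < T ∧ w.n i = v ∧
      2 ≤ mult om (w.n (i + 1))} ≤ 4 * r ^ 2 := by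
    refine Pr_two h0 h1 w2 v (fun w w' => ∃ i, i < T ∧ w.n i = v ∧ w'.has (w.n (i + 1)))
      ?_ ?_ _ ?_
    · rintro w w' ⟨i, hi, hv, -⟩
      exact ⟨i, hi.le, hv⟩
    · intro w
      by_cases h : ∃ i, i < T ∧ w.n i = v
      · obtain ⟨i, hi, hv⟩ := h
        refine ⟨w.n (i + 1), ?_⟩
        rintro w' ⟨j, hj, hjv, hw'⟩
        have : j = i := n_inj w hj.le hi.le (hjv.trans hv.symm)
        rw [this] at hw'
        exact hw'
      · exact ⟨v, fun w' ⟨i, hi, hv, _⟩ => absurd ⟨i, hi, hv⟩ h⟩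
    · rintro om ⟨w, hw, i, hi, hv, hm⟩
      obtain ⟨w', hne, hw', hu⟩ := hpair om w _ hm
      exact ⟨w, w', hne, hw, hw', i, hi, hv, hu⟩
  have e6 : C.Pr T p {om | ∃ w : C.Wk T, om w = true ∧ ∃ i, i < T ∧ w.hd i v ∧
      2 ≤ mult om (w.n i)} ≤ 4 * r ^ 2 := by
    refine Pr_two h0 h1 w2 a (fun w w' => ∃ i, i < T ∧ w.hd i v ∧ w'.has (w.n i)) ?_ ?_ _ ?_
    · rintro w w' ⟨i, hi, hv, -⟩
      exact ⟨i + 1, hi, ha _ hv⟩
    · intro w
      by_cases h : ∃ i, i < T ∧ w.hd i v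
      · obtain ⟨i, hi, hv⟩ := h
        refine ⟨w.n i, ?_⟩
        rintro w' ⟨j, hj, hjv, hw'⟩
        have : j + 1 = i + 1 := n_inj w hj hi ((ha _ hjv).trans (ha _ hv).symm)
        have h2 : j = i := by omega
        rw [h2] at hw'
        exact hw'
      · exact ⟨v, fun w' ⟨i, hi, hv, _⟩ => absurd ⟨i, hi, hv⟩ h⟩
    · rintro om ⟨w, hw, i, hi, hv, hm⟩
      obtain ⟨w', hne, hw', hu⟩ := hpair om w _ hm
      exact ⟨w, w', hne, hw, hw', i, hi, hv, hu⟩
  have hsub : {om : C.Wk T → Bool | Dv om v} ⊆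
      ({om | ∃ w : C.Wk T, om w = true ∧ w.n T = v} ∪
        {om | ∃ w : C.Wk T, om w = true ∧ C.f (w.n 0) = some v}) ∪
      ({om | 2 ≤ mult om v} ∪ {om | 2 ≤ mult om a}) ∪
      ({om | ∃ w : C.Wk T, om w = true ∧ ∃ i, i < T ∧ w.n i = v ∧ 2 ≤ mult om (w.n (i + 1))} ∪
        {om | ∃ w : C.Wk T, om w = true ∧ ∃ i, i < T ∧ w.hd i v ∧ 2 ≤ mult om (w.n i)}) := by
    intro om hom
    rcases hD om v hom with ⟨w, hw, h | h⟩ | h | ⟨b, hb, h⟩ | h | h
    · exact Or.inl (Or.inl (Or.inl ⟨w, hw, h⟩))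
    · exact Or.inl (Or.inl (Or.inr ⟨w, hw, h⟩))
    · exact Or.inl (Or.inr (Or.inl h))
    · exact Or.inl (Or.inr (Or.inr (ha b hb ▸ h)))
    · exact Or.inr (Or.inl h)
    · exact Or.inr (Or.inr h)
  have hU : ∀ X Y : Set (C.Wk T → Bool), C.Pr T p (X ∪ Y) ≤ C.Pr T p X + C.Pr T p Y :=
    fun X Y => LLLA.Pr_union_le hq X Y
  have hM : C.Pr T p {om : C.Wk T → Bool | Dv om v} ≤ C.Pr T p _ := LLLA.Pr_mono hq hsub
  refine hM.trans ?_
  refine (hU _ _).trans ?_
  have f1 := hU ({om : C.Wk T → Bool | ∃ w : C.Wk T, om w = true ∧ w.n T = v} ∪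
        {om | ∃ w : C.Wk T, om w = true ∧ C.f (w.n 0) = some v})
      ({om | 2 ≤ mult om v} ∪ {om | 2 ≤ mult om a})
  have f2 := hU {om : C.Wk T → Bool | ∃ w : C.Wk T, om w = true ∧ w.n T = v}
    {om | ∃ w : C.Wk T, om w = true ∧ C.f (w.n 0) = some v}
  have f3 := hU {om : C.Wk T → Bool | 2 ≤ mult om v} {om | 2 ≤ mult om a}
  have f4 := hU {om : C.Wk T → Bool | ∃ w : C.Wk T, om w = true ∧ ∃ i, i < T ∧ w.n i = v ∧
      2 ≤ mult om (w.n (i + 1))}
    {om | ∃ w : C.Wk T, om w = true ∧ ∃ i, i < T ∧ w.hd i v ∧ 2 ≤ mult om (w.n i)}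
  linarith

end

end Pool.Agent.C4K.H83
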